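import Mathlib
import Pool.Agent.MP_5439be_al.Rigid

/-! A countable torsion-free abelian non-hopfian group with a hopfian subgroup of index two. -/

set_option autoImplicit false

namespace Pool.Agent.Results.MP_5439be_al.IndexTwo

open Pool.Agent.MP_5439be_al

theorem countable_rigid (t : ℤ_[3]) : Countable (rigidGroup t) := by
  have hP : Countable (Polynomial ℤ) :=
    (Polynomial.toFinsuppIso ℤ).toEquiv.countable_iff.2
      (AddMonoidAlgebra.coeffEquiv.countable_iff.2 inferInstance)
  have h : ((rigidGroup t : AddSubgroup ℤ_[3]) : Set ℤ_[3]) ⊆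
      ⋃ q : ℕ × Polynomial ℤ, {x | 3 ^ q.1 * x = Polynomial.aeval t q.2} := by
    rintro x ⟨k, P, -, hx⟩
    exact Set.mem_iUnion.2 ⟨(k, P), hx⟩
  refine (Set.Countable.mono h (Set.countable_iUnion fun q => ?_)).to_subtype
  refine Set.Subsingleton.countable fun x hx y hy => ?_
  exact mul_left_cancel₀ (pow_ne_zero q.1 (by norm_num : (3 : ℤ_[3]) ≠ 0)) (hx.trans hy.symm)

theorem result : ∃ (G : Type) (_ : CommGroup G) (H : Subgroup G),
    Countable G ∧ (∀ (x : G) (n : ℕ), n ≠ 0 → x ^ n = 1 → x = 1) ∧ H.index = 2 ∧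
    (∀ f : H →* H, Function.Surjective f → Function.Injective f) ∧
    ∃ g : G →* G, Function.Surjective g ∧ ∃ x : G, x ≠ 1 ∧ g x = 1 := by
  obtain ⟨t, ht⟩ := exists_transcendental
  let D := rigidData ht
  have hc := countable_rigid t
  let Λ : Multiplicative (ℕ →₀ rigidGroup t) →* Multiplicative (ZMod 2) :=
    AddMonoidHom.toMultiplicative D.Lam
  refine ⟨Multiplicative (ℕ →₀ rigidGroup t), inferInstance, Λ.ker,
    inferInstanceAs (Countable (ℕ →₀ rigidGroup t)), ?_, ?_, ?_, ?_⟩
  · intro x n hn hx
    have h1 : n • Multiplicative.toAdd x = 0 := hx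
    have h2 : Multiplicative.toAdd x = 0 := by
      ext i
      have h3 := congrArg (fun w : ℕ →₀ rigidGroup t => ((w i : rigidGroup t) : ℤ_[3])) h1
      simp only [Finsupp.coe_smul, Pi.smul_apply, AddSubgroupClass.coe_nsmul, nsmul_eq_mul,
        Finsupp.coe_zero, Pi.zero_apply, ZeroMemClass.coe_zero, mul_eq_zero, Nat.cast_eq_zero,
        hn, false_or] at h3
      simpa using h3
    exact h2
  · have hs : Function.Surjective Λ := by
      intro z
      refine ⟨Multiplicative.ofAdd (Finsupp.single 0 ((Multiplicative.toAdd z).val • D.b 0)), ?_⟩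
      change Multiplicative.ofAdd (D.Lam (Finsupp.single 0 _)) = z
      rw [D.Lam_single, map_nsmul, D.lam_self]
      simp
    rw [Subgroup.index_ker, MonoidHom.range_eq_top.2 hs]
    simp
  · intro f hf
    let e : D.Lam.ker → Λ.ker := fun h => ⟨Multiplicative.ofAdd h.1, h.2⟩
    let e' : Λ.ker → D.Lam.ker := fun h => ⟨Multiplicative.toAdd h.1, h.2⟩
    let ψ : D.Lam.ker →+ D.Lam.ker := AddMonoidHom.mk' (fun h => e' (f (e h))) (by
      intro a b
      have : e (a + b) = e a * e b := rfl
      rw [this, map_mul]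
      rfl)
    have hψ : Function.Surjective ψ := by
      intro y
      obtain ⟨x, hx⟩ := hf (e y)
      refine ⟨e' x, ?_⟩
      change e' (f x) = y
      rw [hx]
      rfl
    have hinj := D.hopfian ψ hψ
    intro x y hxy
    have : ψ (e' x) = ψ (e' y) := by
      change e' (f x) = e' (f y)
      rw [hxy]
    exact congrArg e (hinj this)
  · refine ⟨AddMonoidHom.toMultiplicative (shift (rigidGroup t)),
      fun y => shift_surjective (A := rigidGroup t) y, ?_⟩
    by_contra hcon
    push Not at hcon
    refine D.shift_not_injective ((injective_iff_map_eq_zero _).2 fun x hx => ?_)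
    by_contra hx0
    exact hcon (Multiplicative.ofAdd x) hx0 hx

end Pool.Agent.Results.MP_5439be_al.IndexTwo
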